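import Pool.Agent.Helper22.G4.Cone

/-! # G4-A5: from realized families to graphs of cones -/

namespace Pool.Agent.Helper82.G4

open Submodule Pool.Agent.Helper22.G4 Filter Topology

variable {V : Type*}

lemma A5_face {c : V → E5} {A : Finset V} {Φ : Set (E5 →ₗ[ℝ] ℝ)} (hnn : ∀ φ ∈ Φ, ∀ v ∈ A, 0 ≤ φ (c v))
    (S : Set V) (hS : S ⊆ A)
    (h : ∀ t ∈ A, t ∉ S → ∃ φ ∈ Φ, (∀ s ∈ S, φ (c s) = 0) ∧ φ (c t) ≠ 0) : FaceOn c A S := by
  classical
  have h' : ∀ t : V, ∃ φ : E5 →ₗ[ℝ] ℝ, (∀ w ∈ A, 0 ≤ φ (c w)) ∧ (∀ s ∈ S, φ (c s) = 0) ∧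
      (t ∈ A → t ∉ S → φ (c t) ≠ 0) := by
    intro t
    by_cases ht : t ∈ A ∧ t ∉ S
    · obtain ⟨φ, hφ, h1, h2⟩ := h t ht.1 ht.2
      exact ⟨φ, hnn φ hφ, h1, fun _ _ => h2⟩
    · refine ⟨0, fun w _ => by simp, fun s _ => by simp, fun a b => absurd ⟨a, b⟩ ht⟩
  choose φ h1 h2 h3 using h'
  refine ⟨hS, ∑ t ∈ A, φ t, ?_, ?_⟩
  · intro w hw
    rw [LinearMap.sum_apply]
    exact Finset.sum_nonneg fun t _ => h1 t w hw
  · intro w hw
    rw [LinearMap.sum_apply]
    constructor
    · intro h0
      by_contra hwS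
      have := (Finset.sum_eq_zero_iff_of_nonneg fun t _ => h1 t w hw).mp h0 w hw
      exact h3 w hw hwS this
    · intro hwS
      exact Finset.sum_eq_zero fun t _ => h2 t w hwS

/-- G4-A5 (from realized families to graphs of cones). -/
theorem conic_of_realizable {A : Finset V} {𝓩 : Set (Set V)} (h : Realizable A 𝓩)
    (hv : ∀ u ∈ A, FVert A 𝓩 u) : ConicGraph A (FAdj A 𝓩) := by
  classical
  obtain ⟨c, Φ, hc, h𝓩⟩ := h
  refine ⟨c, ⟨hc.pos, ?_⟩, hc.span, ?_⟩
  · intro v hvA
    apply A5_face hc.nonneg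
    · intro w hw
      rw [Set.mem_singleton_iff] at hw
      rw [hw]; exact hvA
    · intro t ht htv
      rw [Set.mem_singleton_iff] at htv
      obtain ⟨Z, hZ, hvZ, htZ⟩ := hv v hvA t ht htv
      rw [← h𝓩] at hZ
      obtain ⟨φ, hφ, rfl⟩ := hZ
      refine ⟨φ, hφ, ?_, ?_⟩
      · intro s hs
        rw [Set.mem_singleton_iff] at hs
        rw [hs]; exact hvZ.2
      · intro h0
        exact htZ ⟨ht, h0⟩
  · intro u hu v hvA huv
    constructor
    · intro hF t ht htu htv
      obtain ⟨_, f, hf1, hf2⟩ := hF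
      by_contra hcon
      push Not at hcon
      have hall : ∀ φ ∈ Φ, φ (c u) = 0 → φ (c v) = 0 → φ (c t) = 0 := by
        intro φ hφ e1 e2
        have := hcon (zs c A φ) (h𝓩 ▸ Set.mem_image_of_mem _ hφ) ⟨hu, e1⟩ ⟨hvA, e2⟩
        exact this.2
      have hev : ∀ᶠ e : ℝ in 𝓝[>] 0, ∀ φ ∈ Φ, 0 ≤ φ (c u + c v - e • c t) := by
        rw [Filter.eventually_all_finite hc.finite]
        intro φ hφ
        have e1 := hc.nonneg φ hφ u hu
        have e2 := hc.nonneg φ hφ v hvA
        by_cases h0 : φ (c u) = 0 ∧ φ (c v) = 0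
        · have h3 := hall φ hφ h0.1 h0.2
          refine Filter.Eventually.of_forall fun e => ?_
          simp [h0.1, h0.2, h3]
        · have hpos : 0 < φ (c u) + φ (c v) := by
            rcases lt_or_eq_of_le e1 with h4 | h4
            · linarith
            · rcases lt_or_eq_of_le e2 with h5 | h5
              · linarith
              · exact absurd ⟨h4.symm, h5.symm⟩ h0
          have hcont : Tendsto (fun e : ℝ => φ (c u) + φ (c v) - e * φ (c t)) (𝓝[>] 0)
              (𝓝 (φ (c u) + φ (c v) - 0 * φ (c t))) := by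
            apply Tendsto.mono_left _ nhdsWithin_le_nhds
            apply Continuous.tendsto
            fun_prop
          have := hcont.eventually (lt_mem_nhds (a := (0 : ℝ)) (by simpa using hpos))
          filter_upwards [this] with e he
          simp only [map_sub, map_add, map_smul, smul_eq_mul]
          exact he.le
      have hev2 : ∀ᶠ e : ℝ in 𝓝[>] 0, 0 < e := self_mem_nhdsWithin
      obtain ⟨e, he1, he2⟩ := (hev.and hev2).exists
      obtain ⟨b, hb, hx⟩ := hc.compl _ he1
      have hfx : f (c u + c v - e • c t) = ∑ w ∈ A, b w * f (c w) := by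
        rw [hx, map_sum]
        simp
      have hfu : f (c u) = 0 := (hf2 u hu).mpr (by simp)
      have hfv : f (c v) = 0 := (hf2 v hvA).mpr (by simp)
      have hft : 0 < f (c t) := by
        rcases lt_or_eq_of_le (hf1 t ht) with h4 | h4
        · exact h4
        · have := (hf2 t ht).mp h4.symm
          rcases this with h5 | h5
          · exact absurd h5 htu
          · exact absurd h5 htv
      have hge : 0 ≤ ∑ w ∈ A, b w * f (c w) :=
        Finset.sum_nonneg fun w hw => mul_nonneg (hb w hw) (hf1 w hw)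
      rw [← hfx, map_sub, map_add, map_smul, hfu, hfv, smul_eq_mul] at hge
      have := mul_pos he2 hft
      linarith
    · intro hadj
      apply A5_face hc.nonneg
      · intro w hw
        rcases hw with hw | hw
        · rw [hw]; exact hu
        · rw [hw]; exact hvA
      · intro t ht htS
        have htu : t ≠ u := fun h => htS (by simp [h])
        have htv : t ≠ v := fun h => htS (by simp [h])
        obtain ⟨Z, hZ, huZ, hvZ, htZ⟩ := hadj t ht htu htv
        rw [← h𝓩] at hZ
        obtain ⟨φ, hφ, rfl⟩ := hZ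
        refine ⟨φ, hφ, ?_, ?_⟩
        · intro s hs
          rcases hs with hs | hs
          · rw [hs]; exact huZ.2
          · rw [hs]; exact hvZ.2
        · intro h0
          exact htZ ⟨ht, h0⟩

end Pool.Agent.Helper82.G4
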