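import Pool.Agent.Helper22.G4.Poly

/-! # G4-F1: from cones to polytopes in Euclidean space -/

namespace Pool.Agent.Helper82.G4

open Pool.Agent.Helper22.G4 Module Submodule
open Pool.Agent.Helper89 Pool.Agent.Helper91.PolyTime

section
variable {E : Type*} [AddCommGroup E] [Module ℝ E]

lemma F1_nonneg {s : Finset E} {f : E →ₗ[ℝ] ℝ} (hf : ∀ y ∈ s, 0 ≤ f y) {x : E}
    (hx : x ∈ convexHull ℝ (s : Set E)) : 0 ≤ f x := by
  rw [Finset.mem_convexHull'] at hx
  obtain ⟨w, hw, -, rfl⟩ := hx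
  rw [map_sum]
  exact Finset.sum_nonneg fun y hy => by
    rw [map_smul, smul_eq_mul]; exact mul_nonneg (hw y hy) (hf y hy)

lemma F1_face {s : Finset E} {f : E →ₗ[ℝ] ℝ} (hf : ∀ y ∈ s, 0 ≤ f y) {x : E}
    (hx : x ∈ convexHull ℝ (s : Set E)) (h0 : f x = 0) (t : Finset E)
    (ht : ∀ y ∈ s, f y = 0 → y ∈ t) (hts : t ⊆ s) : x ∈ convexHull ℝ (t : Set E) := by
  rw [Finset.mem_convexHull'] at hx
  obtain ⟨w, hw, hw1, rfl⟩ := hx
  rw [map_sum] at h0
  have h1 := (Finset.sum_eq_zero_iff_of_nonneg (fun y hy => by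
    rw [map_smul, smul_eq_mul]; exact mul_nonneg (hw y hy) (hf y hy))).mp h0
  have h2 : ∀ y ∈ s, y ∉ t → w y = 0 := by
    intro y hy hyt
    have := h1 y hy
    rw [map_smul, smul_eq_mul, mul_eq_zero] at this
    rcases this with h | h
    · exact h
    · exact absurd (ht y hy h) hyt
  rw [Finset.mem_convexHull']
  refine ⟨w, fun y hy => hw y (hts hy), ?_, ?_⟩
  · rw [← hw1]
    exact Finset.sum_subset hts h2
  · exact Finset.sum_subset hts fun y hy hyt => by rw [h2 y hy hyt, zero_smul]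

end

lemma F1_main {V : Type} (A : Finset V) (q : V → EuclideanSpace ℝ (Fin 5))
    (H : EuclideanSpace ℝ (Fin 5) →ₗ[ℝ] ℝ) (hH : ∀ v ∈ A, H (q v) = 1)
    (hspan : span ℝ (q '' (A : Set V)) = ⊤) (hvert : ∀ v ∈ A, FaceOn q A {v})
    (G : SimpleGraph {x // x ∈ A})
    (hG : ∀ u v, G.Adj u v ↔ u ≠ v ∧ FaceOn q A {(u : V), (v : V)}) : IsGraphOf4Polytope G := by
  classical
  obtain ⟨s, hs⟩ : ∃ s, s = A.image q := ⟨_, rfl⟩
  have hsA : (s : Set (EuclideanSpace ℝ (Fin 5))) = q '' (A : Set V) := by rw [hs, Finset.coe_image]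
  have hqs : ∀ v ∈ A, q v ∈ s := fun v hv => by rw [hs]; exact Finset.mem_image_of_mem q hv
  have hqP : ∀ v ∈ A, q v ∈ convexHull ℝ (s : Set (EuclideanSpace ℝ (Fin 5))) :=
    fun v hv => subset_convexHull ℝ _ (by simpa using hqs v hv)
  have hfs : ∀ f : EuclideanSpace ℝ (Fin 5) →ₗ[ℝ] ℝ, (∀ w ∈ A, 0 ≤ f (q w)) → ∀ y ∈ s, 0 ≤ f y := by
    intro f hf y hy
    rw [hs, Finset.mem_image] at hy
    obtain ⟨w, hw, rfl⟩ := hy
    exact hf w hw
  have hinj : ∀ u ∈ A, ∀ v ∈ A, q u = q v → u = v := by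
    intro u hu v hv huv
    obtain ⟨-, f, -, hf2⟩ := hvert v hv
    have h1 : f (q v) = 0 := (hf2 v hv).mpr rfl
    rw [← huv] at h1
    exact (hf2 u hu).mp h1
  -- extreme points
  have hext : ∀ v ∈ A, q v ∈ (convexHull ℝ (s : Set (EuclideanSpace ℝ (Fin 5)))).extremePoints ℝ := by
    intro v hv
    obtain ⟨-, f, hf1, hf2⟩ := hvert v hv
    have hfs' := hfs f hf1
    have hf0 : f (q v) = 0 := (hf2 v hv).mpr rfl
    have huniq : ∀ x ∈ convexHull ℝ (s : Set (EuclideanSpace ℝ (Fin 5))), f x = 0 → x = q v := by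
      intro x hx hx0
      have := F1_face hfs' hx hx0 {q v} (by
        intro y hy hy0
        rw [hs, Finset.mem_image] at hy
        obtain ⟨w, hw, rfl⟩ := hy
        have := (hf2 w hw).mp hy0
        rw [Set.mem_singleton_iff] at this
        rw [this, Finset.mem_singleton]) (by
        intro y hy
        rw [Finset.mem_singleton] at hy
        rw [hy]; exact hqs v hv)
      simpa using this
    rw [mem_extremePoints]
    refine ⟨hqP v hv, ?_⟩
    rintro x₁ h₁ x₂ h₂ ⟨a, b, ha, hb, hab, hx⟩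
    have e1 := F1_nonneg hfs' h₁
    have e2 := F1_nonneg hfs' h₂
    have e3 : a * f x₁ + b * f x₂ = 0 := by
      rw [← hf0, ← hx, map_add, map_smul, map_smul, smul_eq_mul, smul_eq_mul]
    have e4 : 0 ≤ a * f x₁ := mul_nonneg ha.le e1
    have e5 : 0 ≤ b * f x₂ := mul_nonneg hb.le e2
    have e6 : a * f x₁ = 0 := by linarith
    have e7 : b * f x₂ = 0 := by linarith
    exact ⟨huniq x₁ h₁ ((mul_eq_zero.mp e6).resolve_left ha.ne'),
      huniq x₂ h₂ ((mul_eq_zero.mp e7).resolve_left hb.ne')⟩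
  -- faces and exposed segments
  have hexp : ∀ u ∈ A, ∀ v ∈ A, (IsExposed ℝ (convexHull ℝ (s : Set (EuclideanSpace ℝ (Fin 5))))
      (segment ℝ (q u) (q v)) ↔ FaceOn q A {u, v}) := by
    intro u hu v hv
    constructor
    · intro hE
      obtain ⟨l, hl⟩ := hE ⟨q u, left_mem_segment ℝ _ _⟩
      have hu1 : q u ∈ {x ∈ convexHull ℝ (s : Set (EuclideanSpace ℝ (Fin 5))) |
          ∀ y ∈ convexHull ℝ (s : Set (EuclideanSpace ℝ (Fin 5))), l y ≤ l x} := by
        rw [← hl]; exact left_mem_segment ℝ _ _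
      have hv1 : q v ∈ {x ∈ convexHull ℝ (s : Set (EuclideanSpace ℝ (Fin 5))) |
          ∀ y ∈ convexHull ℝ (s : Set (EuclideanSpace ℝ (Fin 5))), l y ≤ l x} := by
        rw [← hl]; exact right_mem_segment ℝ _ _
      have huv : l (q v) = l (q u) := le_antisymm (hu1.2 _ hv1.1) (hv1.2 _ hu1.1)
      refine ⟨?_, l (q u) • H - (l : EuclideanSpace ℝ (Fin 5) →ₗ[ℝ] ℝ), ?_, ?_⟩
      · intro w hw
        rcases hw with hw | hw
        · rw [hw]; exact hu
        · rw [Set.mem_singleton_iff] at hw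
          rw [hw]; exact hv
      · intro w hw
        have := hu1.2 _ (hqP w hw)
        simp only [LinearMap.sub_apply, LinearMap.smul_apply, hH w hw, smul_eq_mul, mul_one,
          ContinuousLinearMap.coe_coe]
        linarith
      · intro w hw
        simp only [LinearMap.sub_apply, LinearMap.smul_apply, hH w hw, smul_eq_mul, mul_one,
          ContinuousLinearMap.coe_coe]
        constructor
        · intro h0
          have hlw : l (q w) = l (q u) := by linarith
          have hseg : q w ∈ segment ℝ (q u) (q v) := by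
            rw [hl]
            exact ⟨hqP w hw, fun y hy => by rw [hlw]; exact hu1.2 y hy⟩
          rw [← insert_endpoints_openSegment] at hseg
          rcases hseg with h | h | h
          · exact Or.inl (hinj w hw u hu h)
          · exact Or.inr (hinj w hw v hv h)
          · have := (mem_extremePoints.mp (hext w hw)).2 _ hu1.1 _ hv1.1 h
            exact Or.inl (hinj w hw u hu this.1.symm)
        · intro h0
          rcases h0 with h | h
          · rw [h]; ring
          · rw [Set.mem_singleton_iff] at h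
            rw [h, huv]; ring
    · rintro ⟨-, f, hf1, hf2⟩ -
      have hfs' := hfs f hf1
      have hfu : f (q u) = 0 := (hf2 u hu).mpr (by simp)
      have hfv : f (q v) = 0 := (hf2 v hv).mpr (by simp)
      refine ⟨-(LinearMap.toContinuousLinearMap f), ?_⟩
      ext x
      constructor
      · intro hx
        have hxP : x ∈ convexHull ℝ (s : Set (EuclideanSpace ℝ (Fin 5))) :=
          (convex_convexHull ℝ _).segment_subset (hqP u hu) (hqP v hv) hx
        obtain ⟨a, b, -, -, -, hx'⟩ := hx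
        have hfx : f x = 0 := by
          rw [← hx', map_add, map_smul, map_smul, hfu, hfv]; simp
        refine ⟨hxP, fun y hy => ?_⟩
        have := F1_nonneg hfs' hy
        simp only [neg_apply, LinearMap.coe_toContinuousLinearMap', hfx]
        linarith
      · rintro ⟨hxP, hx⟩
        have h1 := hx _ (hqP u hu)
        simp only [neg_apply, LinearMap.coe_toContinuousLinearMap', hfu] at h1
        have h2 := F1_nonneg hfs' hxP
        have hfx : f x = 0 := by linarith
        have := F1_face hfs' hxP hfx {q u, q v} (by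
          intro y hy hy0
          rw [hs, Finset.mem_image] at hy
          obtain ⟨w, hw, rfl⟩ := hy
          rcases (hf2 w hw).mp hy0 with h | h
          · rw [h]; simp
          · rw [Set.mem_singleton_iff] at h
            rw [h]; simp) (by
          intro y hy
          rw [Finset.mem_insert, Finset.mem_singleton] at hy
          rcases hy with h | h
          · rw [h]; exact hqs u hu
          · rw [h]; exact hqs v hv)
        rw [Finset.coe_insert, Finset.coe_singleton, convexHull_pair] at this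
        exact this
  -- dimension
  have hne : A.Nonempty := by
    by_contra hne
    rw [Finset.not_nonempty_iff_eq_empty] at hne
    rw [hne, Finset.coe_empty, Set.image_empty, span_empty] at hspan
    have h1 : finrank ℝ (⊥ : Submodule ℝ (EuclideanSpace ℝ (Fin 5))) = 5 := by
      rw [hspan, finrank_top]; simp
    simp at h1
  obtain ⟨v0, hv0⟩ := hne
  have hrank : finrank ℝ (vectorSpan ℝ (s : Set (EuclideanSpace ℝ (Fin 5)))) = 4 := by
    have hfr : finrank ℝ (EuclideanSpace ℝ (Fin 5)) = 5 := by simp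
    have hle : vectorSpan ℝ (s : Set (EuclideanSpace ℝ (Fin 5))) ≤ LinearMap.ker H := by
      rw [vectorSpan_def, span_le]
      rintro z ⟨x, hx, y, hy, rfl⟩
      rw [Finset.mem_coe, hs, Finset.mem_image] at hx hy
      obtain ⟨a, ha, rfl⟩ := hx
      obtain ⟨b, hb, rfl⟩ := hy
      rw [SetLike.mem_coe, LinearMap.mem_ker]
      simp only [vsub_eq_sub, map_sub, hH a ha, hH b hb, sub_self]
    have hrange : LinearMap.range H = ⊤ := by
      rw [LinearMap.range_eq_top]
      intro r
      exact ⟨r • q v0, by rw [map_smul, hH v0 hv0, smul_eq_mul, mul_one]⟩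
    have hker : finrank ℝ (LinearMap.ker H) = 4 := by
      have := LinearMap.finrank_range_add_finrank_ker H
      rw [hrange, finrank_top, hfr] at this
      simp at this
      omega
    have h1 : finrank ℝ (vectorSpan ℝ (s : Set (EuclideanSpace ℝ (Fin 5)))) ≤ 4 := by
      rw [← hker]; exact Submodule.finrank_mono hle
    have htop : (⊤ : Submodule ℝ (EuclideanSpace ℝ (Fin 5)))
        ≤ vectorSpan ℝ (s : Set (EuclideanSpace ℝ (Fin 5))) ⊔ span ℝ {q v0} := by
      rw [← hspan, span_le]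
      rintro x ⟨v, hv, rfl⟩
      have e : q v = (q v - q v0) + q v0 := by abel
      rw [e]
      refine add_mem (mem_sup_left ?_) (mem_sup_right (mem_span_singleton_self _))
      have := vsub_mem_vectorSpan ℝ (s := (s : Set (EuclideanSpace ℝ (Fin 5)))) (p₁ := q v)
        (p₂ := q v0) (by simpa using hqs v hv) (by simpa using hqs v0 hv0)
      simpa using this
    have h2 : 5 ≤ finrank ℝ (vectorSpan ℝ (s : Set (EuclideanSpace ℝ (Fin 5)))) + 1 := by
      have h3 := Submodule.finrank_mono htop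
      rw [finrank_top, hfr] at h3
      have h4 := Submodule.finrank_add_le_finrank_add_finrank
        (vectorSpan ℝ (s : Set (EuclideanSpace ℝ (Fin 5)))) (span ℝ {q v0})
      have h5 : finrank ℝ (span ℝ {q v0}) ≤ 1 := by
        have := finrank_span_finset_le_card (R := ℝ) ({q v0} : Finset (EuclideanSpace ℝ (Fin 5)))
        rw [Finset.coe_singleton] at this
        simpa [Set.finrank] using this
      omega
    omega
  refine ⟨5, s, s.finite_toSet, hrank, ⟨?_⟩⟩
  let e0 : {x // x ∈ A} → (convexHull ℝ (s : Set (EuclideanSpace ℝ (Fin 5)))).extremePoints ℝ :=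
    fun v => ⟨q v.1, hext v.1 v.2⟩
  have he0 : Function.Bijective e0 := by
    constructor
    · intro u v huv
      exact Subtype.ext (hinj u.1 u.2 v.1 v.2 (Subtype.mk.inj huv))
    · rintro ⟨x, hx⟩
      have h1 := extremePoints_convexHull_subset hx
      rw [Finset.mem_coe, hs, Finset.mem_image] at h1
      obtain ⟨v, hv, hvx⟩ := h1
      exact ⟨⟨v, hv⟩, Subtype.ext hvx⟩
  refine ⟨Equiv.ofBijective e0 he0, ?_⟩
  intro u v
  rw [hG]
  constructor
  · rintro ⟨h1, h2⟩
    exact ⟨fun h => h1 (by rw [h]), (hexp u.1 u.2 v.1 v.2).mp h2⟩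
  · rintro ⟨h1, h2⟩
    exact ⟨fun h => h1 (he0.1 h), (hexp u.1 u.2 v.1 v.2).mpr h2⟩

/-- rescaling -/
lemma F1_scale {V E E' : Type*} [AddCommGroup E] [Module ℝ E] [AddCommGroup E'] [Module ℝ E']
    {A : Finset V} {c : V → E} (L : E ≃ₗ[ℝ] E') {r : V → ℝ} (hr : ∀ v ∈ A, 0 < r v) (Z : Set V) :
    FaceOn (fun v => r v • L (c v)) A Z ↔ FaceOn c A Z := by
  constructor
  · rintro ⟨hZ, f, hf1, hf2⟩
    refine ⟨hZ, f ∘ₗ (L : E →ₗ[ℝ] E'), ?_, ?_⟩
    · intro w hw
      have := hf1 w hw
      rw [map_smul, smul_eq_mul] at this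
      exact nonneg_of_mul_nonneg_right this (hr w hw)
    · intro w hw
      rw [← hf2 w hw, map_smul, smul_eq_mul, mul_eq_zero, or_iff_right (hr w hw).ne']
      rfl
  · rintro ⟨hZ, f, hf1, hf2⟩
    refine ⟨hZ, f ∘ₗ (L.symm : E' →ₗ[ℝ] E), ?_, ?_⟩
    · intro w hw
      rw [map_smul, smul_eq_mul]
      apply mul_nonneg (hr w hw).le
      simpa using hf1 w hw
    · intro w hw
      rw [← hf2 w hw, map_smul, smul_eq_mul, mul_eq_zero, or_iff_right (hr w hw).ne']
      simp

/-- G4-F1 -/
theorem poly_of_conic {V : Type} (A : Finset V) (adj : V → V → Prop)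
    (G : SimpleGraph {x // x ∈ A}) (hG : ∀ u v, G.Adj u v ↔ u ≠ v ∧ adj u v)
    (h : ConicGraph A adj) : IsGraphOf4Polytope G := by
  obtain ⟨c, hc, hspan, hadj⟩ := h
  obtain ⟨g, hg⟩ := hc.pos
  let L : E5 ≃ₗ[ℝ] EuclideanSpace ℝ (Fin 5) := (WithLp.linearEquiv 2 ℝ (Fin 5 → ℝ)).symm
  have hr : ∀ v ∈ A, 0 < (g (c v))⁻¹ := fun v hv => inv_pos.mpr (hg v hv)
  refine F1_main A (fun v => (g (c v))⁻¹ • L (c v)) (g ∘ₗ (L.symm : EuclideanSpace ℝ (Fin 5) →ₗ[ℝ] E5))
    ?_ ?_ ?_ G ?_
  · intro v hv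
    rw [map_smul, smul_eq_mul]
    simp only [LinearMap.comp_apply, LinearEquiv.coe_coe, LinearEquiv.symm_apply_apply]
    exact inv_mul_cancel₀ (hg v hv).ne'
  · rw [eq_top_iff]
    intro x _
    have hx : L.symm x ∈ span ℝ (c '' (A : Set V)) := by rw [hspan]; exact mem_top
    have hx2 : x ∈ (span ℝ (c '' (A : Set V))).map (L : E5 →ₗ[ℝ] EuclideanSpace ℝ (Fin 5)) :=
      ⟨L.symm x, hx, by simp⟩
    rw [map_span] at hx2
    refine span_le.mpr ?_ hx2
    rintro y ⟨z, ⟨v, hv, rfl⟩, rfl⟩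
    have e : (L : E5 →ₗ[ℝ] EuclideanSpace ℝ (Fin 5)) (c v) = g (c v) • ((g (c v))⁻¹ • L (c v)) := by
      rw [smul_smul, mul_inv_cancel₀ (hg v hv).ne', one_smul]; rfl
    rw [SetLike.mem_coe, e]
    exact smul_mem _ _ (subset_span ⟨v, hv, rfl⟩)
  · intro v hv
    exact (F1_scale L hr {v}).mpr (hc.vert v hv)
  · intro u v
    rw [hG]
    constructor
    · rintro ⟨h1, h2⟩
      refine ⟨h1, (F1_scale L hr _).mpr ((hadj u u.2 v v.2 ?_).mpr h2)⟩
      exact fun h => h1 (Subtype.ext h)
    · rintro ⟨h1, h2⟩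
      refine ⟨h1, (hadj u u.2 v v.2 ?_).mp ((F1_scale L hr _).mp h2)⟩
      exact fun h => h1 (Subtype.ext h)

end Pool.Agent.Helper82.G4
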