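import Pool.Agent.Helper22.G4.Sys

/-! # G4-N4: ordered solution of the normal form system -/

namespace Pool.Agent.Helper82.G4

open Pool.Agent.Helper22.G4

/-! ### the small values -/

noncomputable def N4A (u : ℕ → ℝ) : ℕ → ℝ
  | 0 => 2
  | i + 1 => N4A u i + u i + 1

noncomputable def N4C (u : ℕ → ℝ) (n : ℕ) : ℕ → ℝ
  | 0 => N4A u n
  | i + 1 => N4C u n i * u i + 1

section small

variable {u : ℕ → ℝ} (hu : ∀ i, 1 < u i)
include hu

lemma N4A_ge (i : ℕ) : 2 ≤ N4A u i := by
  induction i with
  | zero => exact le_rfl
  | succ i ih => simp only [N4A]; linarith [hu i]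

lemma N4A_lt {i j : ℕ} (h : i < j) : N4A u i + u i + 1 ≤ N4A u j := by
  induction j with
  | zero => omega
  | succ j ih =>
    simp only [N4A]
    rcases Nat.lt_succ_iff_lt_or_eq.mp h with h1 | h1
    · linarith [ih h1, hu j]
    · rw [h1]

lemma N4C_ge (n i : ℕ) : 2 ≤ N4C u n i := by
  induction i with
  | zero => exact N4A_ge hu n
  | succ i ih =>
    simp only [N4C]
    nlinarith [hu i]

lemma N4C_mul (n i : ℕ) : N4C u n i < N4C u n i * u i := by
  nlinarith [hu i, N4C_ge hu n i]

lemma N4C_lt (n : ℕ) {i j : ℕ} (h : i < j) : N4C u n i * u i + 1 ≤ N4C u n j := by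
  induction j with
  | zero => omega
  | succ j ih =>
    simp only [N4C]
    rcases Nat.lt_succ_iff_lt_or_eq.mp h with h1 | h1
    · linarith [ih h1, N4C_mul hu n j]
    · rw [h1]

lemma N4C_zero_le (n : ℕ) : N4A u n ≤ N4C u n n := by
  rcases Nat.eq_zero_or_pos n with h | h
  · subst h; exact le_rfl
  · have h1 := N4C_lt hu n h
    have h2 := N4C_mul hu n 0
    have h3 : N4C u n 0 = N4A u n := rfl
    linarith

end small

noncomputable def N4sv (u : ℕ → ℝ) (n B l : ℕ) : ℝ :=
  if l ≤ B + 1 then 0 else if l = B + 2 then 1 else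
  if l - (B + 3) < 2 * n then
    (if (l - (B + 3)) % 2 = 0 then N4A u ((l - (B + 3)) / 2)
      else N4A u ((l - (B + 3)) / 2) + u ((l - (B + 3)) / 2))
  else if l - (B + 3) < 4 * n then
    (if (l - (B + 3) - 2 * n) % 2 = 0 then N4C u n ((l - (B + 3) - 2 * n) / 2)
      else N4C u n ((l - (B + 3) - 2 * n) / 2) * u ((l - (B + 3) - 2 * n) / 2))
  else if l - (B + 3) = 4 * n then 3 * N4C u n n
  else 3 * N4C u n n + N4C u n n ^ 3 + 1

section sv

variable {u : ℕ → ℝ} {n B : ℕ}

lemma N4sv_zero : N4sv u n B (B + 1) = 0 := by simp [N4sv]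

lemma N4sv_one : N4sv u n B (B + 2) = 1 := by
  unfold N4sv
  rw [if_neg (by omega), if_pos rfl]

lemma N4sv_A {i : ℕ} (hi : i < n) : N4sv u n B (lA B i) = N4A u i := by
  have e : lA B i - (B + 3) = 2 * i := by unfold lA; omega
  have e1 : 2 * i / 2 = i := by omega
  unfold N4sv
  rw [e, if_neg (by unfold lA; omega), if_neg (by unfold lA; omega), if_pos (by omega),
    if_pos (by omega), e1]

lemma N4sv_S {i : ℕ} (hi : i < n) : N4sv u n B (lS B i) = N4A u i + u i := by
  have e : lS B i - (B + 3) = 2 * i + 1 := by unfold lS; omega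
  have e1 : (2 * i + 1) / 2 = i := by omega
  unfold N4sv
  rw [e, if_neg (by unfold lS; omega), if_neg (by unfold lS; omega), if_pos (by omega),
    if_neg (by omega), e1]

lemma N4sv_C {i : ℕ} (hi : i < n) : N4sv u n B (lC B n i) = N4C u n i := by
  have e : lC B n i - (B + 3) = 2 * n + 2 * i := by unfold lC; omega
  have e1 : 2 * n + 2 * i - 2 * n = 2 * i := by omega
  have e2 : 2 * i / 2 = i := by omega
  unfold N4sv
  rw [e, if_neg (by unfold lC; omega), if_neg (by unfold lC; omega), if_neg (by omega),
    if_pos (by omega), e1, if_pos (by omega), e2]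

lemma N4sv_M {i : ℕ} (hi : i < n) : N4sv u n B (lM B n i) = N4C u n i * u i := by
  have e : lM B n i - (B + 3) = 2 * n + 2 * i + 1 := by unfold lM; omega
  have e1 : 2 * n + 2 * i + 1 - 2 * n = 2 * i + 1 := by omega
  have e2 : (2 * i + 1) / 2 = i := by omega
  unfold N4sv
  rw [e, if_neg (by unfold lM; omega), if_neg (by unfold lM; omega), if_neg (by omega),
    if_pos (by omega), e1, if_neg (by omega), e2]

lemma N4sv_D : N4sv u n B (lD B n) = 3 * N4C u n n := by
  have e : lD B n - (B + 3) = 4 * n := by unfold lD; omega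
  unfold N4sv
  rw [e, if_neg (by unfold lD; omega), if_neg (by unfold lD; omega), if_neg (by omega),
    if_neg (by omega), if_pos rfl]

lemma N4sv_E : N4sv u n B (lE B n) = 3 * N4C u n n + N4C u n n ^ 3 + 1 := by
  have e : lE B n - (B + 3) = 4 * n + 1 := by unfold lE; omega
  unfold N4sv
  rw [e, if_neg (by unfold lE; omega), if_neg (by unfold lE; omega), if_neg (by omega),
    if_neg (by omega), if_neg (by omega)]

lemma N4sv_step (hu : ∀ i, 1 < u i) (hn : 1 ≤ n) {l : ℕ} (h1 : B + 2 ≤ l) (h2 : l + 1 < B + 3 + (4 * n + 2)) :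
    N4sv u n B l < N4sv u n B (l + 1) := by
  rcases Nat.lt_or_ge l (B + 3) with h3 | h3
  · have e : l = B + 2 := by omega
    have e' : l + 1 = lA B 0 := by unfold lA; omega
    rw [e', N4sv_A (by omega), e, N4sv_one]
    have := N4A_ge hu 0
    linarith
  · rcases Nat.lt_or_ge l (B + 3 + 2 * n) with h4 | h4
    · obtain ⟨i, hi⟩ : ∃ i, l = B + 3 + 2 * i ∨ l = B + 3 + 2 * i + 1 := ⟨(l - (B + 3)) / 2, by omega⟩
      rcases hi with hi | hi
      · have e : l = lA B i := hi
        have e' : l + 1 = lS B i := by unfold lS; omega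
        rw [e', N4sv_S (by omega), e, N4sv_A (by omega)]
        linarith [hu i]
      · have e : l = lS B i := hi
        rcases Nat.lt_or_ge (i + 1) n with h5 | h5
        · have e' : l + 1 = lA B (i + 1) := by unfold lA; omega
          rw [e', N4sv_A h5, e, N4sv_S (by omega)]
          simp only [N4A]; linarith
        · have hin : n = i + 1 := by omega
          have e' : l + 1 = lC B n 0 := by unfold lC; omega
          rw [e', N4sv_C (by omega), e, N4sv_S (by omega)]
          have h6 := N4A_lt hu (i := i) (j := n) (by omega)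
          simp only [N4C]; linarith
    · rcases Nat.lt_or_ge l (B + 3 + 4 * n) with h5 | h5
      · obtain ⟨i, hi⟩ : ∃ i, l = B + 3 + 2 * n + 2 * i ∨ l = B + 3 + 2 * n + 2 * i + 1 :=
          ⟨(l - (B + 3 + 2 * n)) / 2, by omega⟩
        rcases hi with hi | hi
        · have e : l = lC B n i := hi
          have e' : l + 1 = lM B n i := by unfold lM; omega
          rw [e', N4sv_M (by omega), e, N4sv_C (by omega)]
          exact N4C_mul hu n i
        · have e : l = lM B n i := hi
          rcases Nat.lt_or_ge (i + 1) n with h6 | h6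
          · have e' : l + 1 = lC B n (i + 1) := by unfold lC; omega
            rw [e', N4sv_C h6, e, N4sv_M (by omega)]
            simp only [N4C]; linarith
          · have e' : l + 1 = lD B n := by unfold lD; omega
            rw [e', N4sv_D, e, N4sv_M (by omega)]
            have h7 := N4C_lt hu n (i := i) (j := n) (by omega)
            have h8 := N4C_ge hu n n
            linarith
      · have e : l = lD B n := by unfold lD; omega
        have e' : l + 1 = lE B n := by unfold lE; omega
        rw [e', N4sv_E, e, N4sv_D]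
        have h8 := N4C_ge hu n n
        have : 0 < N4C u n n ^ 3 := by positivity
        linarith

end sv

lemma N4_mono {g : ℕ → ℝ} {a b : ℕ} (h : ∀ l, a ≤ l → l + 1 < b → g l < g (l + 1)) :
    ∀ i j, a ≤ i → i < j → j < b → g i < g j := by
  intro i j hi hij hj
  induction j with
  | zero => omega
  | succ j ih =>
    rcases Nat.lt_succ_iff_lt_or_eq.mp hij with h1 | h1
    · exact (ih h1 (by omega)).trans (h j (by omega) hj)
    · rw [h1]; exact h j (by omega) hj

/-! ### the modules -/

/-- a module with first value `b0` can be filled with an increasing list of eight values -/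
def N4Fill (B : ℕ) (sv : ℕ → ℝ) (b : ℕ) (m : List Op) (b0 : ℝ) : Prop :=
  ∃ f : ℕ → ℝ, f 0 = b0 ∧ (∀ k < 7, f k < f (k + 1)) ∧
    ∀ val : ℕ → ℝ, (∀ l, B ≤ l → val l = sv l) → (∀ k < 8, val (b + k) = f k) →
      ∀ o ∈ m, NF.Holds val o

lemma N4_conv {B n i : ℕ} {sv : ℕ → ℝ} {A S C M b0 : ℝ} (hA : sv (lA B i) = A) (hS : sv (lS B i) = S)
    (hC : sv (lC B n i) = C) (hM : sv (lM B n i) = M) (hM' : M = C * (S - A)) (h1 : 0 < A)
    (h2 : A < S) (h3 : 2 ≤ C) (hb : S < b0) : N4Fill B sv (8 * i) (modConv B n i) b0 := by
  refine ⟨fun k => [b0, A + b0, S + b0, C * (A + b0), C * (S + b0), C * (S + b0) + 1,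
    C * (S + b0) + 2, C * (S + b0) + 3].getD k 0, by simp, ?_, ?_⟩
  · intro k hk
    interval_cases k
    · simp; linarith
    · simp; linarith
    · simp; nlinarith
    · simp; nlinarith
    · simp
    · norm_num
    · norm_num
  · intro val h4 h5 o ho
    have v0 : val (8 * i) = b0 := by simpa using h5 0 (by norm_num)
    have v1 : val (8 * i + 1) = A + b0 := by simpa using h5 1 (by norm_num)
    have v2 : val (8 * i + 2) = S + b0 := by simpa using h5 2 (by norm_num)
    have v3 : val (8 * i + 3) = C * (A + b0) := by simpa using h5 3 (by norm_num)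
    have v4 : val (8 * i + 4) = C * (S + b0) := by simpa using h5 4 (by norm_num)
    have wA : val (lA B i) = A := by rw [h4 _ (by unfold lA; omega), hA]
    have wS : val (lS B i) = S := by rw [h4 _ (by unfold lS; omega), hS]
    have wC : val (lC B n i) = C := by rw [h4 _ (by unfold lC; omega), hC]
    have wM : val (lM B n i) = M := by rw [h4 _ (by unfold lM; omega), hM]
    simp only [modConv, List.mem_cons, List.not_mem_nil, or_false] at ho
    rcases ho with rfl | rfl | rfl | rfl | rfl
    · simp only [NF.Holds]; rw [v1, wA, v0]; simp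
    · simp only [NF.Holds]; rw [v2, wS, v0]; simp
    · simp only [NF.Holds]; rw [v3, wC, v1]; simp
    · simp only [NF.Holds]; rw [v4, wC, v2]; simp
    · simp only [NF.Holds]; rw [v4, wM, v3, hM']; simp; ring

/-- the facts on the values of the labels used by the constraint modules -/
structure N4Vals (B n : ℕ) (sv A U C : ℕ → ℝ) (D E : ℝ) : Prop where
  vA : ∀ i < n, sv (lA B i) = A i
  vS : ∀ i < n, sv (lS B i) = A i + U i
  vC : ∀ i < n, sv (lC B n i) = C i
  vM : ∀ i < n, sv (lM B n i) = C i * U i
  vD : sv (lD B n) = D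
  vE : sv (lE B n) = E
  v1 : sv (B + 2) = 1
  A2 : ∀ i, 2 ≤ A i
  U1 : ∀ i, 1 < U i
  C2 : ∀ i, 2 ≤ C i
  hD : ∀ i < n, ∀ j < n, ∀ k < n, A i + U i + (A j + U j) + A k < D
  hE : ∀ i < n, ∀ j < n, ∀ k < n, C i * U i * (C j * U j) * C k < E

lemma N4_con {B n b : ℕ} {sv A U C : ℕ → ℝ} {D E b0 : ℝ} (V : N4Vals B n sv A U C D E) {q : PC}
    (hq : q.2.1 < n ∧ q.2.2.1 < n ∧ q.2.2.2 < n) (hh : PC.Holds U q) (hb : 0 < b0) :
    N4Fill B sv b (modCon B n b q) b0 := by
  obtain ⟨k, x, y, z⟩ := q
  obtain ⟨hx, hy, hz⟩ := hq
  simp only at hx hy hz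
  by_cases hk0 : k = 0
  · -- addition
    subst hk0
    have hU : U x + U y = U z := by simpa [PC.Holds] using hh
    have hDD := V.hD x hx y hy z hz
    have hAx := V.A2 x
    have hAy := V.A2 y
    have hAz := V.A2 z
    have hUx := V.U1 x
    have hUy := V.U1 y
    have hUz := V.U1 z
    refine ⟨fun k => [b0, (A x + U x) + b0, (A y + U y) + ((A x + U x) + b0),
      A z + ((A y + U y) + ((A x + U x) + b0)), D + b0, (A z + U z) + (D + b0),
      A x + ((A z + U z) + (D + b0)), A y + (A x + ((A z + U z) + (D + b0)))].getD k 0, by simp, ?_, ?_⟩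
    · intro k hk
      interval_cases k
      · simp; linarith
      · simp; linarith
      · simp; linarith
      · simp; linarith
      · simp; linarith
      · simp; linarith
      · simp; linarith
    · intro val h4 h5 o ho
      have v0 : val b = b0 := by simpa using h5 0 (by norm_num)
      have v1 : val (b + 1) = _ := h5 1 (by norm_num)
      have v2 : val (b + 2) = _ := h5 2 (by norm_num)
      have v3 : val (b + 3) = _ := h5 3 (by norm_num)
      have v4 : val (b + 4) = _ := h5 4 (by norm_num)
      have v5 : val (b + 5) = _ := h5 5 (by norm_num)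
      have v6 : val (b + 6) = _ := h5 6 (by norm_num)
      have v7 : val (b + 7) = _ := h5 7 (by norm_num)
      simp only [List.getD_cons_succ, List.getD_cons_zero] at v1 v2 v3 v4 v5 v6 v7
      have wSx : val (lS B x) = A x + U x := by rw [h4 _ (by unfold lS; omega), V.vS x hx]
      have wSy : val (lS B y) = A y + U y := by rw [h4 _ (by unfold lS; omega), V.vS y hy]
      have wSz : val (lS B z) = A z + U z := by rw [h4 _ (by unfold lS; omega), V.vS z hz]
      have wAx : val (lA B x) = A x := by rw [h4 _ (by unfold lA; omega), V.vA x hx]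
      have wAy : val (lA B y) = A y := by rw [h4 _ (by unfold lA; omega), V.vA y hy]
      have wAz : val (lA B z) = A z := by rw [h4 _ (by unfold lA; omega), V.vA z hz]
      have wD : val (lD B n) = D := by rw [h4 _ (by unfold lD; omega), V.vD]
      simp only [modCon, if_true, List.mem_cons, List.not_mem_nil, or_false] at ho
      rcases ho with rfl | rfl | rfl | rfl | rfl | rfl | rfl | rfl
      · simp only [NF.Holds]; rw [v1, wSx, v0]; simp
      · simp only [NF.Holds]; rw [v2, wSy, v1]; simp
      · simp only [NF.Holds]; rw [v3, wAz, v2]; simp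
      · simp only [NF.Holds]; rw [v4, wD, v0]; simp
      · simp only [NF.Holds]; rw [v5, wSz, v4]; simp
      · simp only [NF.Holds]; rw [v6, wAx, v5]; simp
      · simp only [NF.Holds]; rw [v7, wAy, v6]; simp
      · simp only [NF.Holds]; rw [v7, wD, v3]; simp only [if_false, Bool.false_eq_true]; linarith
  · by_cases hk1 : k = 1
    · -- multiplication
      subst hk1
      have hU : U x * U y = U z := by simpa [PC.Holds] using hh
      have hEE := V.hE x hx y hy z hz
      have hUx := V.U1 x
      have hUy := V.U1 y
      have hUz := V.U1 z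
      have hCx := V.C2 x
      have hCy := V.C2 y
      have hCz := V.C2 z
      have hMx : 1 < C x * U x := by nlinarith
      have hMy : 1 < C y * U y := by nlinarith
      have hMz : 1 < C z * U z := by nlinarith
      have hE1 : 1 < E := by
        have hxy : 1 < C x * U x * (C y * U y) := by nlinarith
        have hxyz : 1 < C x * U x * (C y * U y) * C z := by nlinarith
        linarith
      have step : ∀ {s t : ℝ}, 1 < s → 0 < t → t < s * t := fun hs ht => by nlinarith
      have p0 : 0 < b0 := hb
      have p1 : 0 < C x * U x * b0 := mul_pos (by linarith) p0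
      have p2 : 0 < C y * U y * (C x * U x * b0) := mul_pos (by linarith) p1
      have p4 : 0 < E * b0 := mul_pos (by linarith) p0
      have p5 : 0 < C z * U z * (E * b0) := mul_pos (by linarith) p4
      have p6 : 0 < C x * (C z * U z * (E * b0)) := mul_pos (by linarith) p5
      refine ⟨fun k => [b0, C x * U x * b0, C y * U y * (C x * U x * b0),
        C z * (C y * U y * (C x * U x * b0)), E * b0, C z * U z * (E * b0),
        C x * (C z * U z * (E * b0)), C y * (C x * (C z * U z * (E * b0)))].getD k 0, by simp, ?_, ?_⟩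
      · intro k hk
        interval_cases k
        · simp only [List.getD_cons_succ, List.getD_cons_zero]; exact step hMx p0
        · simp only [List.getD_cons_succ, List.getD_cons_zero]; exact step hMy p1
        · simp only [List.getD_cons_succ, List.getD_cons_zero]; exact step (by linarith) p2
        · simp only [List.getD_cons_succ, List.getD_cons_zero]
          have := mul_lt_mul_of_pos_right hEE p0
          linarith
        · simp only [List.getD_cons_succ, List.getD_cons_zero]; exact step hMz p4
        · simp only [List.getD_cons_succ, List.getD_cons_zero]; exact step (by linarith) p5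
        · simp only [List.getD_cons_succ, List.getD_cons_zero]; exact step (by linarith) p6
      · intro val h4 h5 o ho
        have v0 : val b = b0 := by simpa using h5 0 (by norm_num)
        have v1 : val (b + 1) = _ := h5 1 (by norm_num)
        have v2 : val (b + 2) = _ := h5 2 (by norm_num)
        have v3 : val (b + 3) = _ := h5 3 (by norm_num)
        have v4 : val (b + 4) = _ := h5 4 (by norm_num)
        have v5 : val (b + 5) = _ := h5 5 (by norm_num)
        have v6 : val (b + 6) = _ := h5 6 (by norm_num)
        have v7 : val (b + 7) = _ := h5 7 (by norm_num)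
        simp only [List.getD_cons_succ, List.getD_cons_zero] at v1 v2 v3 v4 v5 v6 v7
        have wMx : val (lM B n x) = C x * U x := by rw [h4 _ (by unfold lM; omega), V.vM x hx]
        have wMy : val (lM B n y) = C y * U y := by rw [h4 _ (by unfold lM; omega), V.vM y hy]
        have wMz : val (lM B n z) = C z * U z := by rw [h4 _ (by unfold lM; omega), V.vM z hz]
        have wCx : val (lC B n x) = C x := by rw [h4 _ (by unfold lC; omega), V.vC x hx]
        have wCy : val (lC B n y) = C y := by rw [h4 _ (by unfold lC; omega), V.vC y hy]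
        have wCz : val (lC B n z) = C z := by rw [h4 _ (by unfold lC; omega), V.vC z hz]
        have wE : val (lE B n) = E := by rw [h4 _ (by unfold lE; omega), V.vE]
        simp only [modCon, one_ne_zero, if_false, if_true, List.mem_cons, List.not_mem_nil,
          or_false] at ho
        rcases ho with rfl | rfl | rfl | rfl | rfl | rfl | rfl | rfl
        · simp only [NF.Holds]; rw [v1, wMx, v0]; simp
        · simp only [NF.Holds]; rw [v2, wMy, v1]; simp
        · simp only [NF.Holds]; rw [v3, wCz, v2]; simp
        · simp only [NF.Holds]; rw [v4, wE, v0]; simp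
        · simp only [NF.Holds]; rw [v5, wMz, v4]; simp
        · simp only [NF.Holds]; rw [v6, wCx, v5]; simp
        · simp only [NF.Holds]; rw [v7, wCy, v6]; simp
        · simp only [NF.Holds]; rw [v7, wE, v3, ← hU]; simp only [if_true]; ring
    · -- successor
      have hU : U x + 1 = U z := by simpa [PC.Holds, hk0, hk1] using hh
      have hDD := V.hD x hx z hz x hx
      have hAx := V.A2 x
      have hAz := V.A2 z
      have hUx := V.U1 x
      have hUz := V.U1 z
      refine ⟨fun k => [b0, (A z + U z) + b0, A x + ((A z + U z) + b0), D + b0,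
        (A x + U x) + (D + b0), A z + ((A x + U x) + (D + b0)),
        1 + (A z + ((A x + U x) + (D + b0))), 2 + (A z + ((A x + U x) + (D + b0)))].getD k 0,
        by simp, ?_, ?_⟩
      · intro k hk
        interval_cases k
        · simp; linarith
        · simp; linarith
        · simp; linarith
        · simp; linarith
        · simp; linarith
        · simp
        · simp
      · intro val h4 h5 o ho
        have v0 : val b = b0 := by simpa using h5 0 (by norm_num)
        have v1 : val (b + 1) = _ := h5 1 (by norm_num)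
        have v2 : val (b + 2) = _ := h5 2 (by norm_num)
        have v3 : val (b + 3) = _ := h5 3 (by norm_num)
        have v4 : val (b + 4) = _ := h5 4 (by norm_num)
        have v5 : val (b + 5) = _ := h5 5 (by norm_num)
        have v6 : val (b + 6) = _ := h5 6 (by norm_num)
        simp only [List.getD_cons_succ, List.getD_cons_zero] at v1 v2 v3 v4 v5 v6
        have wSx : val (lS B x) = A x + U x := by rw [h4 _ (by unfold lS; omega), V.vS x hx]
        have wSz : val (lS B z) = A z + U z := by rw [h4 _ (by unfold lS; omega), V.vS z hz]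
        have wAx : val (lA B x) = A x := by rw [h4 _ (by unfold lA; omega), V.vA x hx]
        have wAz : val (lA B z) = A z := by rw [h4 _ (by unfold lA; omega), V.vA z hz]
        have wD : val (lD B n) = D := by rw [h4 _ (by unfold lD; omega), V.vD]
        have w1 : val (B + 2) = 1 := by rw [h4 _ (by omega), V.v1]
        simp only [modCon, hk0, hk1, if_false, List.mem_cons, List.not_mem_nil, or_false] at ho
        rcases ho with rfl | rfl | rfl | rfl | rfl | rfl | rfl
        · simp only [NF.Holds]; rw [v1, wSz, v0]; simp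
        · simp only [NF.Holds]; rw [v2, wAx, v1]; simp
        · simp only [NF.Holds]; rw [v3, wD, v0]; simp
        · simp only [NF.Holds]; rw [v4, wSx, v3]; simp
        · simp only [NF.Holds]; rw [v5, wAz, v4]; simp
        · simp only [NF.Holds]; rw [v6, w1, v5]; simp
        · simp only [NF.Holds]; rw [v6, wD, v2]; simp only [if_false, Bool.false_eq_true]; linarith

/-- G4-N4 -/
theorem strong_of_posSat {n : ℕ} {C : List PC} (hn : 1 ≤ n)
    (hC : ∀ q ∈ C, q.2.1 < n ∧ q.2.2.1 < n ∧ q.2.2.2 < n) (h : PosSat C) : (nfOf n C).Strong := by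
  obtain ⟨u, hu, hc⟩ := h
  obtain ⟨B, hB⟩ : ∃ B, B = 8 * (n + C.length) := ⟨_, rfl⟩
  obtain ⟨sv, hsv⟩ : ∃ sv, sv = N4sv u n B := ⟨_, rfl⟩
  obtain ⟨β, hβ⟩ : ∃ β, β = 3 * N4C u n n + N4C u n n ^ 3 + 1 + 1 := ⟨_, rfl⟩
  have hV : N4Vals B n sv (N4A u) u (N4C u n) (3 * N4C u n n) (3 * N4C u n n + N4C u n n ^ 3 + 1) := by
    refine ⟨fun i hi => by rw [hsv, N4sv_A hi], fun i hi => by rw [hsv, N4sv_S hi],
      fun i hi => by rw [hsv, N4sv_C hi], fun i hi => by rw [hsv, N4sv_M hi], by rw [hsv, N4sv_D],
      by rw [hsv, N4sv_E], by rw [hsv, N4sv_one], N4A_ge hu, hu, N4C_ge hu n, ?_, ?_⟩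
    · intro i hi j hj k hk
      have h1 := N4A_lt hu hi
      have h2 := N4A_lt hu hj
      have h3 := N4A_lt hu hk
      have h4 := N4C_zero_le hu n
      linarith [hu k]
    · intro i hi j hj k hk
      have h1 := N4C_lt hu n hi
      have h2 := N4C_lt hu n hj
      have h3 := N4C_lt hu n hk
      have h3' := N4C_mul hu n k
      have g1 := N4C_mul hu n i
      have g2 := N4C_mul hu n j
      have g1' := N4C_ge hu n i
      have g2' := N4C_ge hu n j
      have g3' := N4C_ge hu n k
      have g4 := N4C_ge hu n n
      have e1 : N4C u n i * u i * (N4C u n j * u j) ≤ N4C u n n * N4C u n n :=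
        mul_le_mul (by linarith) (by linarith) (by linarith) (by linarith)
      have e2 : N4C u n i * u i * (N4C u n j * u j) * N4C u n k
          ≤ N4C u n n * N4C u n n * N4C u n n :=
        mul_le_mul e1 (by linarith) (by linarith) (by positivity)
      have e3 : N4C u n n * N4C u n n * N4C u n n = N4C u n n ^ 3 := by ring
      linarith
  have hβ0 : 0 < β := by
    have := N4C_ge hu n n
    rw [hβ]; positivity
  -- the modules
  have hmod : ∀ t : ℕ, ∀ b0 : ℝ, ∃ f : ℕ → ℝ, β < b0 → f 0 = b0 ∧ (∀ k < 7, f k < f (k + 1)) ∧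
      ∀ val : ℕ → ℝ, (∀ l, B ≤ l → val l = sv l) → (∀ k < 8, val (8 * t + k) = f k) →
        (t < n → ∀ o ∈ modConv B n t, NF.Holds val o) ∧
        (∀ j q, t = n + j → C[j]? = some q → ∀ o ∈ modCon B n (8 * (n + j)) q, NF.Holds val o) := by
    intro t b0
    by_cases hb : β < b0
    · have hb00 : 0 < b0 := hβ0.trans hb
      by_cases ht : t < n
      · have hS : N4A u t + u t < b0 := by
          have h1 := N4A_lt hu ht
          have h4 := N4C_zero_le hu n
          have h5 := N4C_ge hu n n
          have h6 : 0 < N4C u n n ^ 3 := by positivity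
          linarith
        obtain ⟨f, f0, f1, f2⟩ := N4_conv (hV.vA t ht) (hV.vS t ht) (hV.vC t ht) (hV.vM t ht)
          (by ring) (by linarith [hV.A2 t]) (by linarith [hu t]) (hV.C2 t) hS
        refine ⟨f, fun _ => ⟨f0, f1, fun val g1 g2 => ⟨fun _ => f2 val g1 g2, ?_⟩⟩⟩
        intro j q htj _
        omega
      · by_cases hj : t - n < C.length
        · have hmem : C[t - n] ∈ C := List.getElem_mem hj
          obtain ⟨f, f0, f1, f2⟩ := N4_con (b := 8 * t) hV (hC _ hmem) (hc _ hmem) hb00
          refine ⟨f, fun _ => ⟨f0, f1, fun val g1 g2 => ⟨fun h => absurd h ht, ?_⟩⟩⟩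
          intro j q htj hq
          have hj' : t - n = j := by omega
          have hq' : q = C[t - n] := by
            rw [← hj', List.getElem?_eq_getElem hj] at hq
            exact (Option.some.inj hq).symm
          have := f2 val g1 g2
          rw [← hq'] at this
          rw [← htj]
          exact this
        · refine ⟨fun k => b0 + k, fun _ => ⟨by simp, fun k _ => by push_cast; linarith,
            fun val _ _ => ⟨fun h => absurd h ht, ?_⟩⟩⟩
          intro j q htj hq
          have hj' : C.length ≤ j := by omega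
          rw [List.getElem?_eq_none hj'] at hq
          exact absurd hq (by simp)
    · exact ⟨fun _ => 0, fun h => absurd h hb⟩
  choose F hF using hmod
  obtain ⟨base, hbase0, hbase1⟩ : ∃ base : ℕ → ℝ, base 0 = β + 1 ∧
      ∀ t, base (t + 1) = F t (base t) 7 + 1 :=
    ⟨fun t => Nat.rec (β + 1) (fun t b => F t b 7 + 1) t, rfl, fun t => rfl⟩
  have hbase : ∀ t, β < base t := by
    intro t
    induction t with
    | zero => rw [hbase0]; linarith
    | succ t ih =>
      obtain ⟨h1, h2, -⟩ := hF t (base t) ih
      have := N4_mono (g := F t (base t)) (a := 0) (b := 8) (fun l _ hl => h2 l (by omega)) 0 7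
        (by omega) (by omega) (by omega)
      rw [hbase1]
      linarith
  obtain ⟨big, hbig⟩ : ∃ big : ℕ → ℝ, big = fun l => F (l / 8) (base (l / 8)) (l % 8) := ⟨_, rfl⟩
  have hbigstep : ∀ l, big l < big (l + 1) := by
    intro l
    rw [hbig]
    by_cases h7 : l % 8 < 7
    · have e1 : (l + 1) / 8 = l / 8 := by omega
      have e2 : (l + 1) % 8 = l % 8 + 1 := by omega
      simp only [e1, e2]
      exact (hF (l / 8) (base (l / 8)) (hbase _)).2.1 _ h7
    · have e1 : (l + 1) / 8 = l / 8 + 1 := by omega
      have e2 : (l + 1) % 8 = 0 := by omega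
      have e3 : l % 8 = 7 := by omega
      simp only [e1, e2, e3]
      rw [(hF (l / 8 + 1) (base (l / 8 + 1)) (hbase _)).1, hbase1]
      linarith
  have hbigβ : ∀ l, β < big l := by
    intro l
    have h0 : β < big 0 := by
      rw [hbig]
      simp only [Nat.zero_div, Nat.zero_mod]
      rw [(hF 0 (base 0) (hbase 0)).1]
      exact hbase 0
    rcases Nat.eq_zero_or_pos l with h | h
    · rw [h]; exact h0
    · exact h0.trans (N4_mono (g := big) (a := 0) (b := l + 1) (fun k _ _ => hbigstep k) 0 l
        (by omega) h (by omega))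
  obtain ⟨val, hval⟩ : ∃ val : ℕ → ℝ, val = fun l => if l < B then big l else sv l := ⟨_, rfl⟩
  have hvs : ∀ l, B ≤ l → val l = sv l := by
    intro l hl
    rw [hval]
    simp only [not_lt.mpr hl, if_false]
  have hvb : ∀ l, l < B → val l = big l := by
    intro l hl
    rw [hval]
    simp only [hl, if_true]
  have hBI : (nfOf n C).B = B := by rw [hB]; rfl
  have hKI : (nfOf n C).K = B + 3 + (4 * n + 2) := by
    rw [hB]; rfl
  have hsmall : ∀ i j, B + 2 ≤ i → i < j → j < B + 3 + (4 * n + 2) → sv i < sv j := by
    rw [hsv]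
    exact N4_mono fun l h1 h2 => N4sv_step hu hn h1 h2
  refine ⟨val, β, ?_, ?_, ?_, ?_, ?_, ?_, ?_⟩
  · rw [hBI, hvs _ (by omega), hsv, N4sv_zero]
  · rw [hBI, hvs _ (by omega), hsv, N4sv_one]
  · rw [hBI, hKI]
    intro i j hi hij hj
    rw [hvs i (by omega), hvs j (by omega)]
    exact hsmall i j hi hij hj
  · rw [hBI, hKI]
    intro i hi hiK
    rw [hvs i (by omega)]
    have hEv : sv (B + 3 + (4 * n + 1)) = 3 * N4C u n n + N4C u n n ^ 3 + 1 := hV.vE
    rcases Nat.lt_or_ge i (B + 3 + (4 * n + 1)) with h1 | h1
    · have := hsmall i (B + 3 + (4 * n + 1)) hi h1 (by omega)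
      rw [hEv] at this
      rw [hβ]; linarith
    · have e : i = B + 3 + (4 * n + 1) := by omega
      rw [e, hEv, hβ]; linarith
  · rw [hBI]
    intro i hi
    rw [hvb i hi]
    exact hbigβ i
  · rw [hBI]
    intro i j hij hj
    rw [hvb i (by omega), hvb j hj]
    exact N4_mono (g := big) (a := 0) (b := j + 1) (fun k _ _ => hbigstep k) i j (by omega) hij
      (by omega)
  · intro o ho
    have hblock : ∀ t, t < n + C.length → ∀ k < 8, val (8 * t + k) = F t (base t) k := by
      intro t ht k hk
      rw [hvb _ (by omega), hbig]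
      have e1 : (8 * t + k) / 8 = t := by omega
      have e2 : (8 * t + k) % 8 = k := by omega
      simp only [e1, e2]
    have ho' : o ∈ (List.range n).flatMap (modConv B n) ++
        C.zipIdx.flatMap fun q => modCon B n (8 * (n + q.2)) q.1 := by
      rw [hB]; exact ho
    rw [List.mem_append, List.mem_flatMap, List.mem_flatMap] at ho'
    rcases ho' with ⟨t, ht, hot⟩ | ⟨⟨q, j⟩, hqj, hoq⟩
    · rw [List.mem_range] at ht
      exact ((hF t (base t) (hbase t)).2.2 val hvs (hblock t (by omega))).1 ht o hot
    · have hget : C[j]? = some q := List.mem_zipIdx_iff_getElem?.mp hqj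
      have hjl : j < C.length := by
        by_contra hcon
        rw [List.getElem?_eq_none (by omega)] at hget
        exact absurd hget (by simp)
      exact ((hF (n + j) (base (n + j)) (hbase _)).2.2 val hvs (hblock (n + j) (by omega))).2 j q rfl
        hget o hoq

end Pool.Agent.Helper82.G4
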