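import Pool.Agent.Helper22.G4.Real
import Pool.Agent.Helper22.G4.St.C0

/-! # G4-R15: the vectors span and lie in a half space -/

namespace Pool.Agent.Helper82.G4

open Submodule Pool.Agent.Helper22.G4

lemma R15_page {I : NF} (hI : I.OK) (G : Geo I) (h m : ℝ) {a : ℕ} (ha : a ≤ I.M) :
    ∃ X H : ℝ, vec X H 1 a (a ^ 2) ∈ span ℝ (G.c h m '' (I.data.verts.toFinset : Set Vx)) := by
  obtain ⟨-, -, hN, -⟩ := NF.size hI
  obtain ⟨i, j, hPU, -, -⟩ := NF.pu_cover hI ha (s := 0) (by omega)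
  refine ⟨G.X a i, G.H a i, subset_span ⟨Vx.u a i j, ?_, ?_⟩⟩
  · rw [Finset.mem_coe, List.mem_toFinset]; exact hPU
  · simp [Geo.c, Vx.u]

/-- G4-R15 (the vectors span and lie in a half space). -/
theorem c_span {I : NF} (hI : I.OK) (G : Geo I) (h m : ℝ) :
    span ℝ (G.c h m '' (I.data.verts.toFinset : Set Vx)) = ⊤ := by
  obtain ⟨hM, -, hN, -⟩ := NF.size hI
  have hal : G.al 0 < G.al I.N := G.mono 0 I.N (by omega) le_rfl
  obtain ⟨hb1m, hb2m⟩ := NF.b_mem (I := I)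
  have hb1 : vec 1 (G.al I.N) 0 0 0 ∈ span ℝ (G.c h m '' (I.data.verts.toFinset : Set Vx)) := by
    refine subset_span ⟨Vx.b1, by simpa using hb1m, ?_⟩
    simp [Geo.c, Vx.b1]
  have hb2 : vec (-1) (-G.al 0) 0 0 0 ∈ span ℝ (G.c h m '' (I.data.verts.toFinset : Set Vx)) := by
    refine subset_span ⟨Vx.b2, by simpa using hb2m, ?_⟩
    simp [Geo.c, Vx.b2]
  obtain ⟨X0, H0, h0⟩ := R15_page hI G h m (a := 0) (by omega)
  obtain ⟨X1, H1, h1⟩ := R15_page hI G h m (a := 1) (by omega)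
  obtain ⟨X2, H2, h2⟩ := R15_page hI G h m (a := 2) (by omega)
  rw [eq_top_iff]
  intro x _
  obtain ⟨a2, ha2⟩ : ∃ a2, a2 = (x 4 - x 3) / 2 := ⟨_, rfl⟩
  obtain ⟨a1, ha1⟩ : ∃ a1, a1 = 2 * x 3 - x 4 := ⟨_, rfl⟩
  obtain ⟨a0, ha0⟩ : ∃ a0, a0 = x 2 - 3 / 2 * x 3 + x 4 / 2 := ⟨_, rfl⟩
  obtain ⟨r0, hr0⟩ : ∃ r0, r0 = x 0 - a0 * X0 - a1 * X1 - a2 * X2 := ⟨_, rfl⟩
  obtain ⟨r1, hr1⟩ : ∃ r1, r1 = x 1 - a0 * H0 - a1 * H1 - a2 * H2 := ⟨_, rfl⟩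
  obtain ⟨b, hb⟩ : ∃ b, b = (r1 - G.al 0 * r0) / (G.al I.N - G.al 0) := ⟨_, rfl⟩
  have hb' : b * (G.al I.N - G.al 0) = r1 - G.al 0 * r0 := by
    rw [hb]; exact div_mul_cancel₀ _ (sub_pos.mpr hal).ne'
  have hx : x = a0 • vec X0 H0 1 (0 : ℕ) ((0 : ℕ) ^ 2) + a1 • vec X1 H1 1 (1 : ℕ) ((1 : ℕ) ^ 2)
      + a2 • vec X2 H2 1 (2 : ℕ) ((2 : ℕ) ^ 2) + b • vec 1 (G.al I.N) 0 0 0
      + (b - r0) • vec (-1) (-G.al 0) 0 0 0 := by
    funext k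
    fin_cases k
    · simp [vec]; linarith
    · simp [vec]; linarith
    · simp [vec]; linarith
    · simp [vec]; linarith
    · simp [vec]; linarith
  rw [hx]
  exact add_mem (add_mem (add_mem (add_mem (smul_mem _ _ h0) (smul_mem _ _ h1)) (smul_mem _ _ h2))
    (smul_mem _ _ hb1)) (smul_mem _ _ hb2)

theorem c_pos {I : NF} (hI : I.OK) (G : Geo I) {h m : ℝ} (hh : 0 < h) (hm : 1 ≤ m) :
    ∃ f : E5 →ₗ[ℝ] ℝ, ∀ v ∈ I.data.verts.toFinset, 0 < f (G.c h m v) := by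
  obtain ⟨hM, -, hN, -⟩ := NF.size hI
  have hal : G.al 0 < G.al I.N := G.mono 0 I.N (by omega) le_rfl
  obtain ⟨α, hα1, hα2⟩ := exists_between hal
  obtain ⟨F, hF⟩ : ∃ F : Vx → ℝ, F = fun v => |-α * G.X v.2.1 v.2.2.1 + G.H v.2.1 v.2.2.1| := ⟨_, rfl⟩
  obtain ⟨K, hK⟩ : ∃ K, K = 1 + ∑ v ∈ I.data.verts.toFinset, F v := ⟨_, rfl⟩
  have hF0 : ∀ v, 0 ≤ F v := fun v => by rw [hF]; exact abs_nonneg _
  have hK1 : 1 ≤ K := by
    rw [hK]; linarith [Finset.sum_nonneg fun v (_ : v ∈ I.data.verts.toFinset) => hF0 v]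
  refine ⟨lin (-α) 1 K 0 0, ?_⟩
  intro v hv
  have hv' : v ∈ I.data.verts := by simpa using hv
  have hpq : 0 < m * h + K * (2 * m - 1) := by
    have h1 : 0 < m * h := mul_pos (by linarith) hh
    have h2 : 0 < K * (2 * m - 1) := mul_pos (by linarith) (by linarith)
    linarith
  rcases NF.verts_cases hv' with h1 | h1 | ⟨a, i, j, -, h1⟩ | ⟨g, -, h1⟩ | ⟨g, -, h1⟩
  · rw [h1]
    simp only [Geo.c, Vx.b1, one_ne_zero, if_false, if_true, lin_vec]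
    linarith
  · rw [h1]
    simp only [Geo.c, Vx.b2, OfNat.ofNat_ne_zero, OfNat.ofNat_ne_one, if_false, if_true, lin_vec]
    linarith
  · have hFK : F v + 1 ≤ K := by
      rw [hK]
      have := Finset.single_le_sum (fun w (_ : w ∈ I.data.verts.toFinset) => hF0 w) hv
      linarith
    have hFv : F v = |-α * G.X a i + G.H a i| := by rw [hF, h1]; simp [Vx.u]
    rw [h1]
    simp only [Geo.c, Vx.u, if_true, lin_vec]
    have := neg_abs_le (-α * G.X a i + G.H a i)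
    linarith
  · rw [h1]
    simp only [Geo.c, Vx.p, OfNat.ofNat_ne_zero, OfNat.ofNat_ne_one, if_false, if_true, lin_vec,
      Nat.reduceEqDiff]
    linarith
  · rw [h1]
    simp only [Geo.c, Vx.q, OfNat.ofNat_ne_zero, OfNat.ofNat_ne_one, if_false, lin_vec,
      Nat.reduceEqDiff]
    linarith

end Pool.Agent.Helper82.G4
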